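import Pool.Agent.H68.L.R_pool_sql_team_seeded_3997aac3.Q283.GM.LA0

/-!
# The moments of the kernels of the systems which are completed by a random symmetric form
-/

set_option autoImplicit false

namespace Q44.BC

open Finset Module
open Pool.Agent.Y697.PP (Sy Nd YY mem_YY)
open Pool.Agent.Y697.PQ

variable {N L : Type} [AddCommGroup N] [Module (ZMod 2) N] [AddCommGroup L]
  [Module (ZMod 2) L]

/-- the kernel -/
def Kr (π : N →ₗ[ZMod 2] L) (z : N →ₗ[ZMod 2] L →ₗ[ZMod 2] ZMod 2)
    (Y : LinearMap.BilinForm (ZMod 2) L) : Submodule (ZMod 2) N where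
  carrier := {x | Y (π x) = z x}
  add_mem' := fun {x y} hx hy => by
    show Y (π (x + y)) = z (x + y)
    rw [map_add, map_add, map_add, hx, hy]
  zero_mem' := by
    show Y (π 0) = z 0
    rw [map_zero, map_zero, map_zero]
  smul_mem' := fun c x hx => by
    show Y (π (c • x)) = z (c • x)
    rw [map_smul, map_smul, map_smul, hx]

theorem mem_Kr {π : N →ₗ[ZMod 2] L} {z : N →ₗ[ZMod 2] L →ₗ[ZMod 2] ZMod 2}
    {Y : LinearMap.BilinForm (ZMod 2) L} {x : N} : x ∈ Kr π z Y ↔ Y (π x) = z x := Iff.rfl

/-- the alternating form -/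
def Om (π : N →ₗ[ZMod 2] L) (z : N →ₗ[ZMod 2] L →ₗ[ZMod 2] ZMod 2) :
    LinearMap.BilinForm (ZMod 2) N :=
  z.compl₂ π + (z.compl₂ π).flip

theorem Om_apply (π : N →ₗ[ZMod 2] L) (z : N →ₗ[ZMod 2] L →ₗ[ZMod 2] ZMod 2) (x y : N) :
    Om π z x y = z x (π y) + z y (π x) := rfl

theorem Om_self (π : N →ₗ[ZMod 2] L) (z : N →ₗ[ZMod 2] L →ₗ[ZMod 2] ZMod 2) (x : N) :
    Om π z x x = 0 := by
  rw [Om_apply]
  exact CharTwo.add_self_eq_zero _

theorem Om_symm (π : N →ₗ[ZMod 2] L) (z : N →ₗ[ZMod 2] L →ₗ[ZMod 2] ZMod 2) (x y : N) :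
    Om π z x y = Om π z y x := by
  rw [Om_apply, Om_apply, add_comm]

/-- the symmetric form with given values -/
theorem exists_sym [Finite L] {j : ℕ} {u : Fin j → L} (hu : LinearIndependent (ZMod 2) u)
    (f : Fin j → L →ₗ[ZMod 2] ZMod 2) (hf : ∀ i k, f i (u k) = f k (u i)) :
    ∃ Y ∈ YY (⊥ : Submodule (ZMod 2) L), ∀ i, Y (u i) = f i := by
  set φ : (Fin j → ZMod 2) →ₗ[ZMod 2] L := Fintype.linearCombination (ZMod 2) u with hφ
  set Z : (Fin j → ZMod 2) →ₗ[ZMod 2] (L →ₗ[ZMod 2] ZMod 2) :=
    Fintype.linearCombination (ZMod 2) f with hZ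
  have hφa : ∀ c, φ c = ∑ i, c i • u i := fun c => Fintype.linearCombination_apply _ _ _
  have hZa : ∀ c, Z c = ∑ i, c i • f i := fun c => Fintype.linearCombination_apply _ _ _
  have hker : LinearMap.ker φ = ⊥ := by
    rw [LinearMap.ker_eq_bot']
    intro c hc
    rw [hφa] at hc
    exact funext (Fintype.linearIndependent_iff.1 hu c hc)
  obtain ⟨g, hg⟩ := LinearMap.exists_leftInverse_of_injective φ hker
  have hgφ : ∀ c, g (φ c) = c := fun c => LinearMap.congr_fun hg c
  have hZu : ∀ c i, Z c (u i) = f i (φ c) := by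
    intro c i
    rw [hZa, hφa, LinearMap.sum_apply, map_sum]
    refine sum_congr rfl fun k _ => ?_
    rw [LinearMap.smul_apply, map_smul, hf k i]
  have hS : ∀ c d, Z c (φ d) = Z d (φ c) := by
    intro c d
    rw [hφa d, map_sum, hZa d, LinearMap.sum_apply]
    refine sum_congr rfl fun k _ => ?_
    rw [map_smul, LinearMap.smul_apply, hZu]
  have hui : ∀ i, φ (Pi.single i 1) = u i := by
    intro i
    rw [hφa, sum_eq_single i]
    · rw [Pi.single_eq_same, one_smul]
    · intro k _ hk
      rw [Pi.single_eq_of_ne hk, zero_smul]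
    · intro h
      exact absurd (mem_univ i) h
  have hZi : ∀ i, Z (Pi.single i 1) = f i := by
    intro i
    rw [hZa, sum_eq_single i]
    · rw [Pi.single_eq_same, one_smul]
    · intro k _ hk
      rw [Pi.single_eq_of_ne hk, zero_smul]
    · intro h
      exact absurd (mem_univ i) h
  refine ⟨LinearMap.mk₂ (ZMod 2) (fun x y => Z (g x) y + Z (g y) x + Z (g x) (φ (g y))) ?_ ?_ ?_ ?_,
    mem_YY.2 ⟨?_, ?_⟩, ?_⟩
  · intro a b c
    simp only [map_add, LinearMap.add_apply]; ring
  · intro a b c
    simp only [map_smul, LinearMap.smul_apply, smul_eq_mul]; ring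
  · intro a b c
    simp only [map_add, LinearMap.add_apply]; ring
  · intro a b c
    simp only [map_smul, LinearMap.smul_apply, smul_eq_mul]; ring
  · intro x y
    simp only [LinearMap.mk₂_apply]
    rw [hS (g x) (g y)]
    ring
  · intro w hw
    rw [Submodule.mem_bot] at hw
    ext y
    simp only [hw, map_zero, LinearMap.zero_apply]
  · intro i
    ext y
    have h1 : g (u i) = Pi.single i 1 := by rw [← hui i, hgφ]
    simp only [LinearMap.mk₂_apply, h1, hZi]
    rw [hZu, add_assoc, CharTwo.add_self_eq_zero, add_zero]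

section cnt

variable [Fintype N] [Finite L] {π : N →ₗ[ZMod 2] L} {z : N →ₗ[ZMod 2] L →ₗ[ZMod 2] ZMod 2}

/-- the isotropic tuples such that no combination is in the set `Z` -/
def Gd (π : N →ₗ[ZMod 2] L) (z : N →ₗ[ZMod 2] L →ₗ[ZMod 2] ZMod 2) (Z : Finset N) {j : ℕ}
    (v : Fin j → N) : Prop :=
  (∀ i k, Om π z (v i) (v k) = 0) ∧ ∀ c : Fin j → ZMod 2, c ≠ 0 → ∑ i, c i • v i ∉ Z

omit [Finite L] in
open Classical in
/-- the orthogonal complement of a tuple -/
theorem card_perp {j : ℕ} (v : Fin j → N)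
    (h : ∀ c : Fin j → ZMod 2, c ≠ 0 → ∃ y, Om π z (∑ i, c i • v i) y ≠ 0) :
    ((univ : Finset N).filter fun x => ∀ i, Om π z (v i) x = 0).card * 2 ^ j =
      2 ^ finrank (ZMod 2) N := by
  have hfin : Module.Finite (ZMod 2) N := Module.Finite.of_finite
  set W : Submodule (ZMod 2) (Module.Dual (ZMod 2) N) :=
    Submodule.span (ZMod 2) (Set.range fun i => Om π z (v i)) with hW
  have hLI : LinearIndependent (ZMod 2) fun i => Om π z (v i) := by
    rw [Fintype.linearIndependent_iff]
    intro c hc i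
    by_contra hi
    obtain ⟨y, hy⟩ := h c fun h0 => hi (congrFun h0 i)
    apply hy
    have : Om π z (∑ i, c i • v i) = ∑ i, c i • Om π z (v i) := by
      rw [map_sum]
      exact sum_congr rfl fun i _ => map_smul _ _ _
    rw [this, hc, LinearMap.zero_apply]
  have h1 : finrank (ZMod 2) W = j := by
    rw [hW, finrank_span_eq_card hLI, Fintype.card_fin]
  have h2 := Subspace.finrank_add_finrank_dualCoannihilator_eq (W := W)
  have h3 : ((univ : Finset N).filter fun x => ∀ i, Om π z (v i) x = 0).card =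
      2 ^ finrank (ZMod 2) W.dualCoannihilator := by
    have h4 : ((univ : Finset N).filter fun x => ∀ i, Om π z (v i) x = 0).card =
        Nat.card W.dualCoannihilator := by
      have : Fintype W.dualCoannihilator := Fintype.ofFinite _
      rw [Nat.card_eq_fintype_card, ← Fintype.card_coe]
      refine Fintype.card_congr (Equiv.subtypeEquivRight fun x => ?_)
      rw [Finset.mem_filter, Submodule.mem_dualCoannihilator]
      constructor
      · rintro ⟨-, hx⟩ φ hφ
        rw [hW] at hφ
        induction hφ using Submodule.span_induction with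
        | mem φ h =>
          obtain ⟨i, rfl⟩ := h
          exact hx i
        | zero => rfl
        | add a b _ _ ha hb => rw [LinearMap.add_apply, ha, hb, add_zero]
        | smul c a _ ha => rw [LinearMap.smul_apply, ha, smul_zero]
      · intro hx
        exact ⟨mem_univ _, fun i => hx _ (Submodule.subset_span ⟨i, rfl⟩)⟩
    rw [h4, Module.natCard_eq_pow_finrank (K := ZMod 2), Nat.card_zmod]
  rw [h3, ← pow_add, add_comm, ← h1, h2]

omit [Finite L] in
open Classical in
/-- the number of the isotropic tuples -/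
theorem card_Gd {Z : Finset N} (hZ : ∀ x, (∀ y, Om π z x y = 0) → x ∈ Z) : ∀ j : ℕ,
    |(((univ : Finset (Fin j → N)).filter fun v => Gd π z Z v).card : ℝ) -
      (2 ^ finrank (ZMod 2) N) ^ j / 2 ^ (j * (j - 1) / 2)| ≤
    j * 2 ^ j * Z.card * ((2 ^ finrank (ZMod 2) N) ^ j / 2 ^ finrank (ZMod 2) N) := by
  intro j
  have hT : (Fintype.card N : ℝ) = 2 ^ finrank (ZMod 2) N := by
    rw [Module.card_eq_pow_finrank (K := ZMod 2) (V := N), ZMod.card]
    push_cast
    rfl
  set T : ℝ := 2 ^ finrank (ZMod 2) N with hTd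
  have hT0 : 0 < T := by positivity
  induction j with
  | zero =>
    have h1 : ((univ : Finset (Fin 0 → N)).filter fun v => Gd π z Z v) = univ := by
      refine Finset.filter_true_of_mem fun v _ => ⟨fun i => i.elim0, fun c hc => ?_⟩
      exact absurd (Subsingleton.elim c 0) hc
    rw [h1]
    simp
  | succ j ih =>
    set G := (univ : Finset (Fin j → N)).filter fun v => Gd π z Z v with hG
    set G' := (univ : Finset (Fin (j + 1) → N)).filter fun v => Gd π z Z v with hG'
    -- the fibres
    have hfib : G'.card = ∑ v ∈ G, (G'.filter fun w => Fin.init w = v).card := by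
      refine Finset.card_eq_sum_card_fiberwise fun w hw => ?_
      rw [Finset.mem_coe, hG', Finset.mem_filter] at hw
      rw [Finset.mem_coe, hG, Finset.mem_filter]
      refine ⟨mem_univ _, fun i k => hw.2.1 _ _, fun c hc => ?_⟩
      have h2 := hw.2.2 (Fin.snoc c 0 : Fin (j + 1) → ZMod 2) (fun h0 => hc (by
        funext i
        have := congrFun h0 i.castSucc
        rwa [Fin.snoc_castSucc] at this))
      rw [Fin.sum_univ_castSucc, Fin.snoc_last, zero_smul, add_zero] at h2
      simp only [Fin.snoc_castSucc] at h2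
      exact h2
    have hone : ∀ v ∈ G, |((G'.filter fun w => Fin.init w = v).card : ℝ) - T / 2 ^ j| ≤
        2 ^ j * Z.card := by
      intro v hv
      rw [hG, Finset.mem_filter] at hv
      obtain ⟨-, hv1, hv2⟩ := hv
      have hp := card_perp (π := π) (z := z) v fun c hc => by
        by_contra hcon
        push Not at hcon
        exact hv2 c hc (hZ _ hcon)
      set Pp := (univ : Finset N).filter fun x => ∀ i, Om π z (v i) x = 0 with hPp
      have hpr : (Pp.card : ℝ) = T / 2 ^ j := by
        rw [eq_div_iff (by positivity), hTd]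
        have h1 := congrArg (fun n : ℕ => (n : ℝ)) hp
        push_cast at h1
        exact h1
      set Bb := (univ : Finset (Fin j → ZMod 2)).biUnion fun c =>
        Z.image fun y => y - ∑ i, c i • v i with hBb
      have hBc : Bb.card ≤ 2 ^ j * Z.card := by
        refine Finset.card_biUnion_le.trans ?_
        refine (Finset.sum_le_card_nsmul _ _ Z.card fun c _ => Finset.card_image_le).trans ?_
        rw [Finset.card_univ, Fintype.card_fun, ZMod.card, Fintype.card_fin, smul_eq_mul]
      have e1 : (G'.filter fun w => Fin.init w = v).card = (Pp \ Bb).card := by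
        refine Finset.card_bij (fun w _ => w (Fin.last j)) ?_ ?_ ?_
        · intro w hw
          rw [Finset.mem_filter, hG', Finset.mem_filter] at hw
          obtain ⟨⟨-, hw1, hw2⟩, hw3⟩ := hw
          subst hw3
          rw [Finset.mem_sdiff, hPp, Finset.mem_filter]
          refine ⟨⟨mem_univ _, fun i => hw1 _ _⟩, fun hB => ?_⟩
          rw [hBb, Finset.mem_biUnion] at hB
          obtain ⟨c, -, hc⟩ := hB
          obtain ⟨y, hy, hyw⟩ := Finset.mem_image.1 hc
          refine hw2 (Fin.snoc c 1 : Fin (j + 1) → ZMod 2) (fun h0 => ?_) ?_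
          · have := congrFun h0 (Fin.last j)
            rw [Fin.snoc_last] at this
            exact one_ne_zero this
          · rw [Fin.sum_univ_castSucc, Fin.snoc_last, one_smul]
            simp only [Fin.snoc_castSucc]
            rw [← hyw, show (∑ i : Fin j, c i • w i.castSucc) = ∑ i, c i • Fin.init w i from rfl,
              add_sub_cancel]
            exact hy
        · intro w hw w' hw' h
          rw [Finset.mem_filter] at hw hw'
          rw [← Fin.snoc_init_self w, ← Fin.snoc_init_self w', hw.2, hw'.2, h]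
        · intro x hx
          rw [Finset.mem_sdiff, hPp, Finset.mem_filter] at hx
          obtain ⟨⟨-, hx1⟩, hx2⟩ := hx
          refine ⟨(Fin.snoc v x : Fin (j + 1) → N), ?_, ?_⟩
          · rw [Finset.mem_filter, hG', Finset.mem_filter]
            refine ⟨⟨mem_univ _, ?_, ?_⟩, Fin.init_snoc _ _⟩
            · intro i k
              induction i using Fin.lastCases with
              | last =>
                induction k using Fin.lastCases with
                | last =>
                  rw [Fin.snoc_last]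
                  exact Om_self π z x
                | cast k =>
                  rw [Fin.snoc_last, Fin.snoc_castSucc, Om_symm]
                  exact hx1 k
              | cast i =>
                induction k using Fin.lastCases with
                | last =>
                  rw [Fin.snoc_last, Fin.snoc_castSucc]
                  exact hx1 i
                | cast k =>
                  rw [Fin.snoc_castSucc, Fin.snoc_castSucc]
                  exact hv1 i k
            · intro c hc
              rw [Fin.sum_univ_castSucc, Fin.snoc_last]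
              simp only [Fin.snoc_castSucc]
              have key : ∀ a : ZMod 2, a = 0 ∨ a = 1 := by decide
              rcases key (c (Fin.last j)) with h | h
              · rw [h, zero_smul, add_zero]
                refine hv2 (fun i => c i.castSucc) fun h0 => hc (funext fun i => ?_)
                induction i using Fin.lastCases with
                | last => exact h
                | cast i => exact congrFun h0 i
              · rw [h, one_smul]
                intro hcon
                apply hx2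
                rw [hBb, Finset.mem_biUnion]
                refine ⟨fun i => c i.castSucc, mem_univ _, Finset.mem_image.2 ⟨_, hcon, ?_⟩⟩
                rw [add_sub_cancel_left]
          · exact Fin.snoc_last _ _
      have e2 : ((Pp \ Bb).card : ℝ) ≤ Pp.card := by
        exact_mod_cast Finset.card_le_card Finset.sdiff_subset
      have e3 : (Pp.card : ℝ) ≤ (Pp \ Bb).card + 2 ^ j * Z.card := by
        have h1 : Pp.card ≤ (Pp \ Bb).card + Bb.card := by
          have := Finset.card_le_card (show Pp ⊆ (Pp \ Bb) ∪ Bb by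
            intro x hx
            rw [Finset.mem_union, Finset.mem_sdiff]
            tauto)
          exact this.trans (Finset.card_union_le _ _)
        have h2 := h1.trans (Nat.add_le_add_left hBc _)
        exact_mod_cast h2
      rw [e1, ← hpr, abs_le]
      constructor <;> linarith
    have hsum : |(G'.card : ℝ) - G.card * (T / 2 ^ j)| ≤ G.card * (2 ^ j * Z.card) := by
      rw [hfib]
      push_cast
      rw [← nsmul_eq_mul, ← Finset.sum_const, ← Finset.sum_sub_distrib]
      refine (Finset.abs_sum_le_sum_abs _ _).trans ((Finset.sum_le_sum hone).trans ?_)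
      rw [Finset.sum_const, nsmul_eq_mul]
    have hGT : (G.card : ℝ) ≤ T ^ j := by
      have h1 : G.card ≤ Fintype.card (Fin j → N) := Finset.card_le_univ _
      rw [Fintype.card_fun, Fintype.card_fin] at h1
      rw [← hT]
      exact_mod_cast h1
    have e3 : (2 : ℝ) ^ ((j + 1) * (j + 1 - 1) / 2) = 2 ^ (j * (j - 1) / 2) * 2 ^ j := by
      rw [tri, pow_add]
    have e4 : T ^ (j + 1) / (2 ^ (j * (j - 1) / 2) * 2 ^ j) =
        T ^ j / 2 ^ (j * (j - 1) / 2) * (T / 2 ^ j) := by
      field_simp
      ring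
    rw [e3, e4]
    have h5 : |(G.card : ℝ) * (T / 2 ^ j) - T ^ j / 2 ^ (j * (j - 1) / 2) * (T / 2 ^ j)| ≤
        j * Z.card * T ^ j := by
      rw [← sub_mul, abs_mul, abs_of_pos (show (0 : ℝ) < T / 2 ^ j by positivity)]
      refine (mul_le_mul_of_nonneg_right ih (by positivity)).trans (le_of_eq ?_)
      field_simp
    have h6 := abs_sub_le (G'.card : ℝ) (G.card * (T / 2 ^ j))
      (T ^ j / 2 ^ (j * (j - 1) / 2) * (T / 2 ^ j))
    have h7 : (G.card : ℝ) * (2 ^ j * Z.card) ≤ T ^ j * (2 ^ j * Z.card) :=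
      mul_le_mul_of_nonneg_right hGT (by positivity)
    have h8 : ((j + 1 : ℕ) : ℝ) * 2 ^ (j + 1) * Z.card * (T ^ (j + 1) / T) =
        (j + 1) * 2 ^ (j + 1) * Z.card * T ^ j := by
      push_cast
      field_simp
      ring
    rw [h8]
    have h9 : (1 : ℝ) ≤ 2 ^ j := one_le_pow₀ (by norm_num)
    have h10 : 0 ≤ (Z.card : ℝ) * T ^ j := by positivity
    have h11 : (j : ℝ) * Z.card * T ^ j ≤ j * 2 ^ (j + 1) * Z.card * T ^ j := by
      have : (j : ℝ) * 1 * (Z.card * T ^ j) ≤ j * 2 ^ (j + 1) * (Z.card * T ^ j) := by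
        refine mul_le_mul_of_nonneg_right ?_ h10
        refine mul_le_mul_of_nonneg_left (one_le_pow₀ (by norm_num)) (Nat.cast_nonneg _)
      linarith
    have h12 : T ^ j * (2 ^ j * Z.card) ≤ 2 ^ (j + 1) * Z.card * T ^ j := by
      rw [pow_succ]
      nlinarith
    linarith

omit [Finite L] in
theorem finrank_span {j : ℕ} {u : Fin j → L} (hu : LinearIndependent (ZMod 2) u) :
    finrank (ZMod 2) ((⊥ : Submodule (ZMod 2) L) ⊔ Submodule.span (ZMod 2) (Set.range u) :
      Submodule (ZMod 2) L) = j := by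
  rw [bot_sup_eq, finrank_span_eq_card hu, Fintype.card_fin]

open Classical in
theorem card_fix {j : ℕ} {u : Fin j → L} (hu : LinearIndependent (ZMod 2) u)
    (hj : j ≤ finrank (ZMod 2) L) {Y₀ : LinearMap.BilinForm (ZMod 2) L}
    (hY : Y₀ ∈ YY (⊥ : Submodule (ZMod 2) L)) :
    ((YY (⊥ : Submodule (ZMod 2) L)).filter fun Y => ∀ i, Y (u i) = Y₀ (u i)).card =
      2 ^ ((finrank (ZMod 2) L - j) * (finrank (ZMod 2) L - j + 1) / 2) := by
  have h3 := card_cond u hY (fun _ => True)
  rw [Finset.filter_true] at h3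
  simp only [true_and] at h3
  rw [← card_YY_eq (finrank (ZMod 2) L - j)
    ((⊥ : Submodule (ZMod 2) L) ⊔ Submodule.span (ZMod 2) (Set.range u))
    (by rw [finrank_span hu]; omega), ← h3]

open Classical in
/-- **the moments** -/
theorem moment {Z : Finset N} (hker : ∀ x, π x = 0 → z x = 0 → x = 0)
    (hZ : ∀ x, (∀ y, Om π z x y = 0) → x ∈ Z) (hZ' : ∀ x, π x = 0 → x ∈ Z) {j : ℕ}
    (hj : j ≤ finrank (ZMod 2) L) :
    |∑ Y ∈ YY (⊥ : Submodule (ZMod 2) L), ij j (2 ^ finrank (ZMod 2) (Kr π z Y)) -
      ((2 ^ finrank (ZMod 2) N / 2 ^ finrank (ZMod 2) L) ^ j *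
        (YY (⊥ : Submodule (ZMod 2) L)).card : ℝ)| ≤
    (2 ^ finrank (ZMod 2) N / 2 ^ finrank (ZMod 2) L) ^ j *
        (YY (⊥ : Submodule (ZMod 2) L)).card *
      ((j + 1) * 2 ^ j * 2 ^ (j * (j - 1) / 2) * (Z.card / 2 ^ finrank (ZMod 2) N)) := by
  have hfin : Module.Finite (ZMod 2) L := Module.Finite.of_finite
  set ℓ := finrank (ZMod 2) L with hℓ
  set 𝒴 := YY (⊥ : Submodule (ZMod 2) L) with h𝒴
  set P : LinearMap.BilinForm (ZMod 2) L → (Fin j → N) → Prop := fun Y v =>
    (∀ i, v i ∈ Kr π z Y) ∧ LinearIndependent (ZMod 2) v with hP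
  set a : (Fin j → N) → ℕ := fun v => (𝒴.filter fun Y => P Y v).card with ha
  set y : ℝ := 2 ^ ((ℓ - j) * (ℓ - j + 1) / 2) with hy
  have hy0 : 0 < y := by positivity
  have hT : (Fintype.card N : ℝ) = 2 ^ finrank (ZMod 2) N := by
    rw [Module.card_eq_pow_finrank (K := ZMod 2) (V := N), ZMod.card]
    push_cast
    rfl
  set T : ℝ := 2 ^ finrank (ZMod 2) N with hTd
  have hT0 : 0 < T := by positivity
  -- double count
  have h1 : ∑ Y ∈ 𝒴, ij j (2 ^ finrank (ZMod 2) (Kr π z Y)) = ∑ v, (a v : ℝ) := by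
    have h2 : ∀ Y ∈ 𝒴, ij j (2 ^ finrank (ZMod 2) (Kr π z Y)) =
        (((univ : Finset (Fin j → N)).filter fun v => P Y v).card : ℝ) := by
      intro Y _
      rw [← card_LI]
    rw [Finset.sum_congr rfl h2]
    have h3 := Finset.sum_card_bipartiteAbove_eq_sum_card_bipartiteBelow
      (s := 𝒴) (t := (univ : Finset (Fin j → N))) (r := P)
    have h4 : ((∑ Y ∈ 𝒴, ((univ : Finset (Fin j → N)).filter fun v => P Y v).card : ℕ) : ℝ) =
        ((∑ v : Fin j → N, a v : ℕ) : ℝ) := by
      exact_mod_cast h3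
    push_cast at h4
    exact h4
  have hLI : ∀ (Y : LinearMap.BilinForm (ZMod 2) L) (v : Fin j → N), P Y v →
      LinearIndependent (ZMod 2) fun i => π (v i) := by
    intro Y v hv
    rw [Fintype.linearIndependent_iff]
    intro c hc
    have h2 : π (∑ i, c i • v i) = 0 := by
      rw [map_sum, ← hc]
      exact sum_congr rfl fun i _ => map_smul _ _ _
    have h3 : ∑ i, c i • v i ∈ Kr π z Y :=
      Submodule.sum_mem _ fun i _ => Submodule.smul_mem _ _ (hv.1 i)
    have h4 : z (∑ i, c i • v i) = 0 := by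
      rw [← mem_Kr.1 h3, h2, map_zero]
    exact Fintype.linearIndependent_iff.1 hv.2 c (hker _ h2 h4)
  -- all tuples
  have hall : ∀ v, (a v : ℝ) ≤ y := by
    intro v
    rcases Nat.eq_zero_or_pos (a v) with h0 | h0
    · rw [h0, Nat.cast_zero]
      exact hy0.le
    · obtain ⟨Y₁, hY₁⟩ := Finset.card_pos.1 h0
      rw [Finset.mem_filter] at hY₁
      have h2 : a v ≤ (𝒴.filter fun Y => ∀ i, Y (π (v i)) = Y₁ (π (v i))).card := by
        apply Finset.card_le_card
        intro Y hY
        rw [Finset.mem_filter] at hY ⊢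
        refine ⟨hY.1, fun i => ?_⟩
        rw [mem_Kr.1 (hY.2.1 i), mem_Kr.1 (hY₁.2.1 i)]
      rw [card_fix (hLI Y₁ v hY₁.2) hj hY₁.1] at h2
      rw [hy]
      exact_mod_cast h2
  -- tuples which are not isotropic
  have hniso : ∀ v, (∀ c : Fin j → ZMod 2, c ≠ 0 → ∑ i, c i • v i ∉ Z) → ¬ Gd π z Z v →
      a v = 0 := by
    intro v hv hv'
    by_contra h0
    obtain ⟨Y, hY⟩ := Finset.card_pos.1 (Nat.pos_of_ne_zero h0)
    rw [Finset.mem_filter] at hY
    apply hv'
    refine ⟨fun i k => ?_, hv⟩
    rw [Om_apply, ← mem_Kr.1 (hY.2.1 i), ← mem_Kr.1 (hY.2.1 k), (mem_YY.1 hY.1).1 (π (v k))]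
    exact CharTwo.add_self_eq_zero _
  -- good tuples
  have hgd : ∀ v, Gd π z Z v → (a v : ℝ) = y := by
    intro v hv
    have hLI' : LinearIndependent (ZMod 2) fun i => π (v i) := by
      rw [Fintype.linearIndependent_iff]
      intro c hc
      by_contra hne
      push Not at hne
      obtain ⟨i, hi⟩ := hne
      refine hv.2 c (fun h => hi (congrFun h i)) (hZ' _ ?_)
      rw [map_sum, ← hc]
      exact sum_congr rfl fun i _ => map_smul _ _ _
    have hLI2 : LinearIndependent (ZMod 2) v := LinearIndependent.of_comp π hLI'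
    obtain ⟨Y₀, hY₀, hY₀v⟩ := exists_sym hLI' (fun i => z (v i)) fun i k => by
      have h3 := hv.1 i k
      rw [Om_apply] at h3
      exact Pool.Agent.Y697.PQ.eq_of_add h3
    have h4 : a v = (𝒴.filter fun Y => ∀ i, Y (π (v i)) = Y₀ (π (v i))).card := by
      rw [ha]
      simp only
      congr 1
      ext Y
      simp only [Finset.mem_filter, hP, mem_Kr, hY₀v]
      constructor
      · rintro ⟨h5, h6, -⟩
        exact ⟨h5, h6⟩
      · rintro ⟨h5, h6⟩
        exact ⟨h5, h6, hLI2⟩
    rw [h4, card_fix hLI' hj hY₀, hy]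
    push_cast
    rfl
  -- the sum
  set G := (univ : Finset (Fin j → N)).filter fun v => Gd π z Z v with hG
  set Bd := (univ : Finset (Fin j → N)).filter fun v =>
    ¬ ∀ c : Fin j → ZMod 2, c ≠ 0 → ∑ i, c i • v i ∉ Z with hBd
  have hbad : (Bd.card : ℝ) ≤ 2 ^ j * Z.card * (T ^ j / T) := by
    have h2 : Bd ⊆ (univ.filter fun c : Fin j → ZMod 2 => c ≠ 0).biUnion fun c =>
        (Fintype.piFinset fun _ : Fin j => (univ : Finset N)).filter fun v => ∑ i, c i • v i ∈ Z := by
      intro v hv
      rw [hBd, Finset.mem_filter] at hv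
      obtain ⟨-, hv2⟩ := hv
      push Not at hv2
      obtain ⟨c, hc, hcZ⟩ := hv2
      rw [Finset.mem_biUnion]
      exact ⟨c, Finset.mem_filter.2 ⟨Finset.mem_univ _, hc⟩, Finset.mem_filter.2
        ⟨Fintype.mem_piFinset.2 fun _ => mem_univ _, hcZ⟩⟩
    have h3 : Bd.card * (univ : Finset N).card ≤ 2 ^ j * (Z.card * (univ : Finset N).card ^ j) := by
      calc Bd.card * (univ : Finset N).card ≤ (∑ c ∈ univ.filter (fun c : Fin j → ZMod 2 => c ≠ 0),
          ((Fintype.piFinset fun _ : Fin j => (univ : Finset N)).filter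
            fun v => ∑ i, c i • v i ∈ Z).card) *
            (univ : Finset N).card :=
              Nat.mul_le_mul_right _ ((Finset.card_le_card h2).trans Finset.card_biUnion_le)
        _ = ∑ c ∈ univ.filter (fun c : Fin j → ZMod 2 => c ≠ 0),
          ((Fintype.piFinset fun _ : Fin j => (univ : Finset N)).filter
            fun v => ∑ i, c i • v i ∈ Z).card * (univ : Finset N).card := Finset.sum_mul _ _ _
        _ ≤ ∑ c ∈ univ.filter (fun c : Fin j → ZMod 2 => c ≠ 0),
            Z.card * (univ : Finset N).card ^ j :=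
          Finset.sum_le_sum fun c hc => card_comb univ Z c (Finset.mem_filter.1 hc).2
        _ = (univ.filter (fun c : Fin j → ZMod 2 => c ≠ 0)).card *
            (Z.card * (univ : Finset N).card ^ j) := by
          rw [Finset.sum_const, smul_eq_mul]
        _ ≤ _ := by
          apply Nat.mul_le_mul_right
          refine (Finset.card_filter_le _ _).trans (le_of_eq ?_)
          rw [Finset.card_univ, Fintype.card_fun, ZMod.card, Fintype.card_fin]
    rw [Finset.card_univ] at h3
    have h4 : (Bd.card : ℝ) * T ≤ 2 ^ j * (Z.card * T ^ j) := by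
      rw [← hT]
      exact_mod_cast h3
    have h5 : (2 : ℝ) ^ j * Z.card * (T ^ j / T) = 2 ^ j * (Z.card * T ^ j) / T := by ring
    rw [h5, le_div_iff₀ hT0]
    exact h4
  have hsplit : |∑ v, (a v : ℝ) - y * G.card| ≤ y * Bd.card := by
    have h2 : ∑ v, (a v : ℝ) = ∑ v ∈ G, (a v : ℝ) + ∑ v ∈ univ.filter (fun v => ¬ Gd π z Z v),
        (a v : ℝ) := by
      rw [hG, Finset.sum_filter_add_sum_filter_not]
    have h3 : ∑ v ∈ G, (a v : ℝ) = y * G.card := by
      rw [Finset.sum_congr rfl fun v hv => hgd v (Finset.mem_filter.1 hv).2, Finset.sum_const,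
        nsmul_eq_mul, mul_comm]
    have h4 : ∑ v ∈ univ.filter (fun v => ¬ Gd π z Z v), (a v : ℝ) ≤ y * Bd.card := by
      have h5 : ∑ v ∈ univ.filter (fun v => ¬ Gd π z Z v), (a v : ℝ) =
          ∑ v ∈ Bd, (a v : ℝ) := by
        symm
        refine Finset.sum_subset_zero_on_sdiff ?_ ?_ fun _ _ => rfl
        · intro v hv
          rw [hBd, Finset.mem_filter] at hv
          rw [Finset.mem_filter]
          exact ⟨mem_univ _, fun h => hv.2 h.2⟩
        · intro v hv
          rw [Finset.mem_sdiff, Finset.mem_filter, hBd, Finset.mem_filter] at hv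
          obtain ⟨⟨-, h6⟩, h7⟩ := hv
          have h8 : ∀ c : Fin j → ZMod 2, c ≠ 0 → ∑ i, c i • v i ∉ Z := by
            by_contra hcon
            exact h7 ⟨mem_univ _, hcon⟩
          rw [hniso v h8 h6, Nat.cast_zero]
      rw [h5]
      refine (Finset.sum_le_sum fun v _ => hall v).trans ?_
      rw [Finset.sum_const, nsmul_eq_mul, mul_comm]
    have h6 : 0 ≤ ∑ v ∈ univ.filter (fun v => ¬ Gd π z Z v), (a v : ℝ) :=
      Finset.sum_nonneg fun _ _ => Nat.cast_nonneg _
    rw [h2, h3, add_sub_cancel_left, abs_of_nonneg h6]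
    exact h4
  have hGc := card_Gd (π := π) (z := z) hZ j
  rw [← hG, ← hTd] at hGc
  -- the main term
  have hYc : (𝒴.card : ℝ) = 2 ^ (ℓ * (ℓ + 1) / 2) := by
    rw [h𝒴, card_YY_eq ℓ (⊥ : Submodule (ZMod 2) L) (by rw [finrank_bot]; omega)]
    push_cast
    rfl
  have hmain : (T / 2 ^ ℓ) ^ j * (𝒴.card : ℝ) = y * (T ^ j / 2 ^ (j * (j - 1) / 2)) := by
    have h2 := tri_add hj
    have h3 : (2 : ℝ) ^ (ℓ * j) * y = 2 ^ (j * (j - 1) / 2) * 2 ^ (ℓ * (ℓ + 1) / 2) := by
      rw [hy, ← pow_add, ← pow_add, h2]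
    rw [hYc, div_pow, ← pow_mul]
    rw [div_mul_eq_mul_div, mul_div_assoc', div_eq_div_iff (by positivity) (by positivity)]
    linear_combination T ^ j * (-1) * h3
  rw [h1, hmain]
  have h2 := abs_sub_le (∑ v, (a v : ℝ)) (y * G.card) (y * (T ^ j / 2 ^ (j * (j - 1) / 2)))
  have h3 : |y * (G.card : ℝ) - y * (T ^ j / 2 ^ (j * (j - 1) / 2))| ≤
      y * (j * 2 ^ j * Z.card * (T ^ j / T)) := by
    rw [← mul_sub, abs_mul, abs_of_pos hy0]
    exact mul_le_mul_of_nonneg_left hGc hy0.le
  have h4 : y * (Bd.card : ℝ) ≤ y * (2 ^ j * Z.card * (T ^ j / T)) :=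
    mul_le_mul_of_nonneg_left hbad hy0.le
  have h5 : y * (T ^ j / 2 ^ (j * (j - 1) / 2)) *
      ((j + 1) * 2 ^ j * 2 ^ (j * (j - 1) / 2) * (Z.card / T)) =
      y * (j * 2 ^ j * Z.card * (T ^ j / T)) + y * (2 ^ j * Z.card * (T ^ j / T)) := by
    field_simp
  rw [h5]
  linarith

end cnt

end Q44.BC
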