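import Pool.Agent.H68.L.R_pool_sql_team_seeded_3997aac3.Q44.BC.LA1

/-!
# The law which is determined by the moments
-/

set_option autoImplicit false

namespace Q44.BC

open Finset Filter Topology
open Pool.Agent.Y697.PQ
open Q283.GM (ij_self cf_le_one ij_self_pos qq qq_even qq_odd)

theorem ij_self_ge (r : ℕ) : 1 ≤ ij r (2 ^ r) := by
  rw [ij_self, le_div_iff₀ (cf_pos r), one_mul]
  exact (cf_le_one r).trans (one_le_pow₀ (by norm_num))

theorem summ_cf (x : ℝ) : Summable fun j : ℕ => cf j * x ^ j := by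
  by_cases hx : x = 0
  · subst hx
    refine summable_of_ne_finset_zero (s := {0}) fun j hj => ?_
    rw [zero_pow (by simpa using hj), mul_zero]
  · refine summable_of_ratio_test_tendsto_lt_one (l := 0) one_pos ?_ ?_
    · exact Eventually.of_forall fun j => mul_ne_zero (cf_pos j).ne' (pow_ne_zero j hx)
    · have h1 : ∀ j : ℕ, ‖cf (j + 1) * x ^ (j + 1)‖ / ‖cf j * x ^ j‖ =
          |x| / (2 ^ (j + 1) - 1) := by
        intro j
        have h2 := pm1 j
        rw [← norm_div, Real.norm_eq_abs, show cf (j + 1) = cf j / (2 ^ (j + 1) - 1) from rfl,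
          pow_succ x]
        have h3 : cf j / (2 ^ (j + 1) - 1) * (x ^ j * x) / (cf j * x ^ j) =
            x / (2 ^ (j + 1) - 1) := by
          have h4 : (2 : ℝ) ^ (j + 1) - 1 ≠ 0 := by linarith
          have h5 := (cf_pos j).ne'
          have h6 := pow_ne_zero j hx
          field_simp
        rw [h3, abs_div, abs_of_pos (show (0 : ℝ) < 2 ^ (j + 1) - 1 by linarith)]
      simp only [h1]
      have h2 : Tendsto (fun j : ℕ => (2 : ℝ) ^ (j + 1) - 1) atTop atTop := by
        refine tendsto_atTop_add_const_right _ _ ?_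
        exact (tendsto_pow_atTop_atTop_of_one_lt (by norm_num)).comp (tendsto_add_atTop_nat 1)
      exact tendsto_const_nhds.div_atTop h2

/-- the value of the alternating series -/
noncomputable def gx (x : ℝ) : ℝ := ∑' j : ℕ, (-1) ^ j * cf j * x ^ j

theorem summ_gx (x : ℝ) : Summable fun j : ℕ => (-1) ^ j * cf j * x ^ j := by
  refine (summ_cf (-x)).congr fun j => ?_
  rw [neg_pow]
  ring

theorem gx_two (x : ℝ) : gx (2 * x) = (1 - x) * gx x := by
  unfold gx
  have h1 := (summ_gx (2 * x)).tsum_sub (summ_gx x)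
  have h2 : ∑' j : ℕ, ((-1) ^ j * cf j * (2 * x) ^ j - (-1) ^ j * cf j * x ^ j) =
      -x * ∑' j : ℕ, (-1) ^ j * cf j * x ^ j := by
    rw [((summ_gx (2 * x)).sub (summ_gx x)).tsum_eq_zero_add, ← tsum_mul_left]
    simp only [pow_zero, mul_one, sub_self, zero_add]
    refine tsum_congr fun j => ?_
    have h3 := pm1 j
    have h4 : (2 : ℝ) ^ (j + 1) - 1 ≠ 0 := by linarith
    rw [show cf (j + 1) = cf j / (2 ^ (j + 1) - 1) from rfl, mul_pow]
    field_simp
    ring
  rw [h2] at h1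
  linarith

theorem gx_prod (x : ℝ) (n : ℕ) :
    gx x = (∏ i ∈ range n, (1 - x / 2 ^ (i + 1))) * gx (x / 2 ^ n) := by
  induction n with
  | zero => simp
  | succ n ih =>
    rw [ih, Finset.prod_range_succ, mul_assoc]
    congr 1
    have h1 := gx_two (x / 2 ^ (n + 1))
    rw [← h1]
    congr 1
    rw [pow_succ]
    field_simp

theorem gx_near {y : ℝ} (h0 : 0 ≤ y) (h1 : y ≤ 1) : |gx y - 1| ≤ y * ∑' j : ℕ, cf j := by
  have hs : Summable fun j : ℕ => cf j := by
    have := summ_cf 1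
    simpa using this
  have h2 : gx y - 1 = ∑' j : ℕ, (-1) ^ (j + 1) * cf (j + 1) * y ^ (j + 1) := by
    unfold gx
    rw [(summ_gx y).tsum_eq_zero_add]
    simp [cf]
  have hs1 : Summable fun j : ℕ => cf (j + 1) := (summable_nat_add_iff 1).2 hs
  have h3 : ∀ j : ℕ, ‖(-1) ^ (j + 1) * cf (j + 1) * y ^ (j + 1)‖ ≤ y * cf (j + 1) := by
    intro j
    rw [norm_mul, norm_mul, norm_pow, norm_neg, norm_one, one_pow, one_mul, Real.norm_eq_abs,
      abs_of_pos (cf_pos _), norm_pow, Real.norm_eq_abs, abs_of_nonneg h0, mul_comm]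
    refine mul_le_mul_of_nonneg_right ?_ (cf_pos _).le
    rw [pow_succ]
    exact mul_le_of_le_one_left h0 (pow_le_one₀ h0 h1)
  have h4 : Summable fun j : ℕ => y * cf (j + 1) := hs1.mul_left y
  rw [h2, ← Real.norm_eq_abs]
  refine (tsum_of_norm_bounded h4.hasSum h3).trans ?_
  rw [tsum_mul_left]
  refine mul_le_mul_of_nonneg_left ?_ h0
  rw [hs.tsum_eq_zero_add]
  have := (cf_pos 0).le
  linarith

theorem gx_tendsto {x : ℝ} (hx : 0 ≤ x) :
    Tendsto (fun n : ℕ => ∏ i ∈ range n, (1 - x / 2 ^ (i + 1))) atTop (𝓝 (gx x)) := by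
  have h1 : Tendsto (fun n : ℕ => x / 2 ^ n) atTop (𝓝 0) :=
    tendsto_const_nhds.div_atTop (tendsto_pow_atTop_atTop_of_one_lt (by norm_num))
  have h2 : Tendsto (fun n : ℕ => gx (x / 2 ^ n)) atTop (𝓝 1) := by
    rw [tendsto_iff_norm_sub_tendsto_zero]
    have h3 : ∀ᶠ n : ℕ in atTop, ‖gx (x / 2 ^ n) - 1‖ ≤ x / 2 ^ n * ∑' j : ℕ, cf j := by
      filter_upwards [h1.eventually (gt_mem_nhds one_pos)] with n hn
      exact gx_near (by positivity) hn.le
    refine squeeze_zero' (Eventually.of_forall fun _ => norm_nonneg _) h3 ?_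
    have := h1.mul_const (∑' j : ℕ, cf j)
    rwa [zero_mul] at this
  have h3 : Tendsto (fun n : ℕ => gx x / gx (x / 2 ^ n)) atTop (𝓝 (gx x / 1)) :=
    tendsto_const_nhds.div h2 one_ne_zero
  rw [div_one] at h3
  refine h3.congr' ?_
  filter_upwards [h2.eventually (lt_mem_nhds (show (0 : ℝ) < 1 by norm_num))] with n hn
  rw [div_eq_iff hn.ne']
  exact gx_prod x n

/-- the limit law of the dimensions if the mean number of the injections of a space of dimension
`j` is `t ^ j` -/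
noncomputable def lam (t : ℝ) (r : ℕ) : ℝ := t ^ r / ij r (2 ^ r) * gx (t / 2 ^ r)

theorem lam_tendsto {t : ℝ} (ht : 0 ≤ t) (r : ℕ) :
    Tendsto (fun n : ℕ => t ^ r / (∏ i ∈ range r, ((2 : ℝ) ^ r - 2 ^ i)) *
      ∏ i ∈ range n, (1 - t / 2 ^ (r + i + 1))) atTop (𝓝 (lam t r)) := by
  have h1 := (gx_tendsto (x := t / 2 ^ r) (by positivity)).const_mul (t ^ r / ij r (2 ^ r))
  refine h1.congr fun n => ?_
  unfold ij
  congr 1
  refine Finset.prod_congr rfl fun i _ => ?_
  rw [div_div, ← pow_add, add_assoc]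

open Classical in
/-- **the law is determined by the moments** -/
theorem law_of_moments {t : ℝ} (ht : 0 < t) (r : ℕ) {ε : ℝ} (hε : 0 < ε) :
    ∃ (J : ℕ) (δ : ℝ), 0 < δ ∧ ∀ (α : Type) (s : Finset α) (d : α → ℕ),
      (∀ j ≤ J, |∑ a ∈ s, ij j (2 ^ d a) - t ^ j * s.card| ≤ δ * s.card) →
      |((s.filter fun a => d a = r).card : ℝ) - lam t r * s.card| ≤ ε * s.card := by
  set x : ℝ := t / 2 ^ r with hx
  have hx0 : 0 < x := by positivity
  set A : ℝ := t ^ r / ij r (2 ^ r) with hA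
  have hij := ij_self_ge r
  have hA0 : 0 < A := div_pos (pow_pos ht r) (by linarith)
  have hpart := (summ_gx x).hasSum.tendsto_sum_nat
  obtain ⟨n₀, hn₀⟩ := (Metric.tendsto_atTop.1 hpart) (ε / (2 * A)) (by positivity)
  set J : ℕ := 2 * n₀ + 1 with hJ
  refine ⟨r + J + 1, ε / (2 * (J + 2)), by positivity, ?_⟩
  intro α s d hm
  set δ : ℝ := ε / (2 * (J + 2)) with hδ
  have hδ0 : 0 < δ := by positivity
  set n : ℝ := (s.card : ℝ) with hn
  have hn0 : 0 ≤ n := Nat.cast_nonneg _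
  have hmain : ∀ I, I ≤ J + 1 → n₀ ≤ I + 1 →
      |∑ a ∈ s, qq r I (2 ^ d a) - lam t r * n| ≤ ε * n := by
    intro I hI hI'
    have h1 : ∑ a ∈ s, qq r I (2 ^ d a) = ∑ j ∈ range (I + 1),
        (-1) ^ j * cf j * (2 ^ (r * j))⁻¹ / ij r (2 ^ r) * ∑ a ∈ s, ij (r + j) (2 ^ d a) := by
      unfold qq
      simp only [Finset.sum_div, Finset.mul_sum]
      rw [Finset.sum_comm]
      refine Finset.sum_congr rfl fun j _ => Finset.sum_congr rfl fun a _ => ?_
      ring
    have h2 : A * (∑ j ∈ range (I + 1), (-1) ^ j * cf j * x ^ j) * n = ∑ j ∈ range (I + 1),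
        (-1) ^ j * cf j * (2 ^ (r * j))⁻¹ / ij r (2 ^ r) * (t ^ (r + j) * n) := by
      rw [Finset.mul_sum, Finset.sum_mul]
      refine Finset.sum_congr rfl fun j _ => ?_
      rw [hA, hx, div_pow, ← pow_mul, pow_add]
      have : (2 : ℝ) ^ (r * j) ≠ 0 := by positivity
      have h3 : ij r (2 ^ r) ≠ 0 := by linarith
      field_simp
    have h3 : |∑ a ∈ s, qq r I (2 ^ d a) - A * (∑ j ∈ range (I + 1), (-1) ^ j * cf j * x ^ j) * n| ≤
        (I + 1) * (δ * n) := by
      rw [h1, h2, ← Finset.sum_sub_distrib]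
      refine (Finset.abs_sum_le_sum_abs _ _).trans ?_
      have h4 : ∀ j ∈ range (I + 1), |(-1) ^ j * cf j * (2 ^ (r * j))⁻¹ / ij r (2 ^ r) *
          ∑ a ∈ s, ij (r + j) (2 ^ d a) -
          (-1) ^ j * cf j * (2 ^ (r * j))⁻¹ / ij r (2 ^ r) * (t ^ (r + j) * n)| ≤ δ * n := by
        intro j hj
        rw [Finset.mem_range] at hj
        have h5 := hm (r + j) (by omega)
        rw [← mul_sub, abs_mul]
        have h6 : |(-1) ^ j * cf j * ((2 : ℝ) ^ (r * j))⁻¹ / ij r (2 ^ r)| ≤ 1 := by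
          have hcj := cf_pos j
          have hp : (0 : ℝ) < (2 ^ (r * j))⁻¹ := by positivity
          rw [abs_div, abs_mul, abs_mul, abs_pow, abs_neg, abs_one, one_pow, one_mul,
            abs_of_pos hcj, abs_of_pos hp, abs_of_pos (show 0 < ij r (2 ^ r) by linarith),
            div_le_one (by linarith)]
          refine le_trans ?_ hij
          refine mul_le_one₀ (cf_le_one j) hp.le ?_
          exact inv_le_one_of_one_le₀ (one_le_pow₀ (by norm_num))
        calc _ ≤ 1 * (δ * n) := mul_le_mul h6 h5 (abs_nonneg _) zero_le_one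
          _ = _ := one_mul _
      refine (Finset.sum_le_sum h4).trans (le_of_eq ?_)
      rw [Finset.sum_const, Finset.card_range, nsmul_eq_mul]
      push_cast
      ring
    have h4 : |A * (∑ j ∈ range (I + 1), (-1) ^ j * cf j * x ^ j) * n - lam t r * n| ≤
        ε / 2 * n := by
      have h5 := hn₀ (I + 1) hI'
      rw [Real.dist_eq] at h5
      have h6 : A * (∑ j ∈ range (I + 1), (-1) ^ j * cf j * x ^ j) * n - lam t r * n =
          A * ((∑ j ∈ range (I + 1), (-1) ^ j * cf j * x ^ j) - gx x) * n := by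
        unfold lam
        rw [← hA, ← hx]
        ring
      rw [h6, abs_mul, abs_mul, abs_of_nonneg hn0, abs_of_pos hA0]
      apply mul_le_mul_of_nonneg_right _ hn0
      have h7 := mul_le_mul_of_nonneg_left h5.le hA0.le
      refine h7.trans (le_of_eq ?_)
      field_simp
    have h5 : ((I : ℝ) + 1) * (δ * n) ≤ ε / 2 * n := by
      rw [← mul_assoc]
      apply mul_le_mul_of_nonneg_right _ hn0
      have h6 : (I : ℝ) ≤ J + 1 := by exact_mod_cast hI
      calc ((I : ℝ) + 1) * δ ≤ (J + 2) * δ := mul_le_mul_of_nonneg_right (by linarith) hδ0.le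
        _ = ε / 2 := by
          rw [hδ]
          field_simp
    have h6 := abs_sub_le (∑ a ∈ s, qq r I (2 ^ d a))
      (A * (∑ j ∈ range (I + 1), (-1) ^ j * cf j * x ^ j) * n) (lam t r * n)
    linarith
  have hcnt : ((s.filter fun a => d a = r).card : ℝ) =
      ∑ a ∈ s, (if d a = r then (1 : ℝ) else 0) := by
    rw [← Finset.sum_filter, Finset.sum_const, nsmul_eq_mul, mul_one]
  have hlo := hmain J (by omega) (by omega)
  have hhi := hmain (J + 1) le_rfl (by omega)
  have hJo : Odd J := ⟨n₀, hJ⟩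
  have hJe : Even (J + 1) := hJo.add_one
  have h1 : ∑ a ∈ s, qq r J (2 ^ d a) ≤ ∑ a ∈ s, (if d a = r then (1 : ℝ) else 0) :=
    Finset.sum_le_sum fun a _ => qq_odd hJo _ _
  have h2 : ∑ a ∈ s, (if d a = r then (1 : ℝ) else 0) ≤ ∑ a ∈ s, qq r (J + 1) (2 ^ d a) :=
    Finset.sum_le_sum fun a _ => qq_even hJe _ _
  rw [hcnt]
  rw [abs_le] at hlo hhi ⊢
  constructor <;> linarith

end Q44.BC
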