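import Pool.Agent.H68.L.R_pool_sql_team_seeded_3997aac3.Q44.BC.LA3

/-!
# The block systems: the dimension and the radical
-/

set_option autoImplicit false
set_option linter.unusedSectionVars false

open scoped Classical

namespace Q44.BC

open Finset Module
open Pool.Agent.Y697.PP (Sy Nd YY mem_YY)
open Pool.Agent.Y697.PQ
open Pool.Agent.Y703.CQ (prs)
open Pool.Agent.Y219.CQ (bf bf_apply bf_l bf_symm mL mL_symm pa pa_surj)

variable {U J G F : Type} [Fintype U] [Fintype J] [LinearOrder J] [AddCommGroup G]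
  [Module (ZMod 2) G] [AddCommGroup F] [Module (ZMod 2) F]

/-- the labels are not degenerate -/
structure Dt.Ok (D : Dt U J G F) : Prop where
  hB : ∀ u, ∀ k ∈ D.J1, D.B u k = D.C k u + D.v (D.hU u) * D.v (D.hJ k)
  mc : ∀ (μ : U → ZMod 2) (l : F →ₗ[ZMod 2] ZMod 2),
    (∀ k ∈ D.J1, ∑ u, μ u * D.C k u + l (D.hJ k) = 0) → μ = 0 ∧ l = 0
  lg : ∀ g e, (g, e) ∈ D.𝓛 → D.χ g = 0 → g = 0

theorem Dt.rJ_apply (D : Dt U J G F) (w : D.E) (k : D.J1) : D.rJ w k =
    ∑ u, D.C k u * (w.1 u + w.2.1 k) +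
    ∑ l : D.J1, (if (l : J) < k then D.v (D.hJ k) * D.v (D.hJ l) else 0) * (w.2.1 l + w.2.1 k) +
    D.g k * w.2.1 k + D.χ w.2.2 (D.hJ k) := rfl

theorem Dt.rU_apply (D : Dt U J G F) (w : D.E) (u : U) : D.rU w u =
    ∑ v, D.A u v * (w.1 v + w.1 u) + ∑ k : D.J1, D.B u k * (w.2.1 k + w.1 u) +
    D.f u * w.1 u + D.χ w.2.2 (D.hU u) := rfl

theorem Dt.sH_apply (D : Dt U J G F) (w : D.E) :
    D.sH w = ∑ u, w.1 u • D.hU u + ∑ k : D.J1, w.2.1 k • D.hJ k := rfl

theorem Dt.ker0 {D : Dt U J G F} (h : D.Ok) (w : D.NN) (h1 : D.π w = 0) (h2 : D.z w = 0) :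
    w = 0 := by
  have h3 : D.rJ w.1 = 0 := by
    refine dp_eq ?_
    rw [← D.z_apply, h2, map_zero]
  have hy : (w : D.E).2.1 = 0 := h1
  have h4 : ∀ k ∈ D.J1, ∑ u, (w : D.E).1 u * D.C k u + D.χ (w : D.E).2.2 (D.hJ k) = 0 := by
    intro k hk
    have h5 := congrFun h3 ⟨k, hk⟩
    rw [D.rJ_apply, hy] at h5
    simp only [Pi.zero_apply, add_zero, mul_zero, sum_const_zero] at h5
    rw [← h5]
    congr 1
    exact sum_congr rfl fun u _ => mul_comm _ _
  obtain ⟨h6, h7⟩ := h.mc _ _ h4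
  have h8 := h.lg _ _ w.2.1 h7
  exact Subtype.ext (Prod.ext h6 (Prod.ext hy h8))

section fin

variable [Finite G] [Finite F]

/-- the space of the extended unknowns -/
noncomputable def Dt.ii (D : Dt U J G F) :
    ((U → ZMod 2) × (D.J1 → ZMod 2) × D.𝓛) →ₗ[ZMod 2] D.E :=
  LinearMap.prodMap LinearMap.id (LinearMap.prodMap LinearMap.id
    (LinearMap.fst (ZMod 2) G F ∘ₗ D.𝓛.subtype))

/-- the equations -/
noncomputable def Dt.ps (D : Dt U J G F) :
    ((U → ZMod 2) × (D.J1 → ZMod 2) × D.𝓛) →ₗ[ZMod 2] F × (U → ZMod 2) :=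
  (D.sH ∘ₗ D.ii + LinearMap.snd (ZMod 2) G F ∘ₗ D.𝓛.subtype ∘ₗ LinearMap.snd (ZMod 2) _ _ ∘ₗ
    LinearMap.snd (ZMod 2) _ _).prod (D.rU ∘ₗ D.ii)

theorem Dt.ps_surj {D : Dt U J G F} (h : D.Ok) : Function.Surjective D.ps := by
  have hf1 : Module.Finite (ZMod 2) G := Module.Finite.of_finite
  have hf2 : Module.Finite (ZMod 2) F := Module.Finite.of_finite
  rw [← LinearMap.dualMap_injective_iff]
  rw [injective_iff_map_eq_zero]
  intro φ hφ
  set l : F →ₗ[ZMod 2] ZMod 2 := φ ∘ₗ LinearMap.inl (ZMod 2) F (U → ZMod 2) with hl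
  set μ : U → ZMod 2 := fun u => φ (0, Pi.single u 1) with hμ
  have hdec : ∀ (e : F) (r : U → ZMod 2), φ (e, r) = l e + ∑ u, r u * μ u := by
    intro e r
    have h1 : ((e, r) : F × (U → ZMod 2)) = (e, 0) + ∑ u, r u • ((0, Pi.single u 1) :
        F × (U → ZMod 2)) := by
      refine Prod.ext ?_ ?_
      · rw [Prod.fst_add, Prod.fst_sum]
        simp
      · rw [Prod.snd_add, Prod.snd_sum]
        simp only [Prod.smul_snd, zero_add]
        funext v
        rw [Finset.sum_apply, sum_eq_single v]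
        · simp
        · intro u _ hu
          rw [Pi.smul_apply, Pi.single_eq_of_ne hu.symm, smul_zero]
        · intro hv
          exact absurd (mem_univ v) hv
    rw [h1, map_add, map_sum]
    congr 1
    refine sum_congr rfl fun u _ => ?_
    rw [map_smul, smul_eq_mul]
  have h1 : ∀ k : D.J1, l (D.hJ k) + ∑ u, D.B u k * μ u = 0 := by
    intro k
    have h2 := LinearMap.congr_fun hφ ((0, Pi.single k 1, 0) :
      (U → ZMod 2) × (D.J1 → ZMod 2) × D.𝓛)
    rw [LinearMap.dualMap_apply, LinearMap.zero_apply] at h2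
    have h3 : D.ps ((0, Pi.single k 1, 0) : (U → ZMod 2) × (D.J1 → ZMod 2) × D.𝓛) =
        (D.hJ k, fun u => D.B u k) := by
      refine Prod.ext ?_ ?_
      · show D.sH ((0, Pi.single k 1, 0) : D.E) + 0 = _
        rw [D.sH_apply, add_zero]
        simp only [Pi.zero_apply, zero_smul, sum_const_zero, zero_add]
        rw [sum_eq_single k]
        · rw [Pi.single_eq_same, one_smul]
        · intro m _ hm
          rw [Pi.single_eq_of_ne hm, zero_smul]
        · intro hm
          exact absurd (mem_univ k) hm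
      · show D.rU ((0, Pi.single k 1, 0) : D.E) = _
        funext u
        rw [D.rU_apply]
        simp only [Pi.zero_apply, add_zero, mul_zero, sum_const_zero, zero_add, map_zero,
          LinearMap.zero_apply]
        rw [sum_eq_single k]
        · rw [Pi.single_eq_same, mul_one]
        · intro m _ hm
          rw [Pi.single_eq_of_ne hm, mul_zero]
        · intro hm
          exact absurd (mem_univ k) hm
    rw [h3, hdec] at h2
    exact h2
  set l' : F →ₗ[ZMod 2] ZMod 2 := l + (∑ u, μ u * D.v (D.hU u)) • D.v with hl'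
  obtain ⟨h2, h3⟩ := h.mc μ l' (by
    intro k hk
    rw [← h1 ⟨k, hk⟩]
    have h4 : ∑ u, D.B u k * μ u = ∑ u, μ u * D.C k u +
        (∑ u, μ u * D.v (D.hU u)) * D.v (D.hJ k) := by
      rw [sum_mul, ← sum_add_distrib]
      refine sum_congr rfl fun u _ => ?_
      rw [h.hB u k hk]
      ring
    show _ = l (D.hJ k) + ∑ u, D.B u k * μ u
    rw [h4, hl', LinearMap.add_apply, LinearMap.smul_apply, smul_eq_mul]
    ring)
  have h4 : l = 0 := by
    rw [hl', h2] at h3
    simpa using h3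
  refine LinearMap.ext fun ⟨e, r⟩ => ?_
  rw [hdec, h2, h4]
  simp

theorem Dt.finrank_NN {D : Dt U J G F} (h : D.Ok) :
    finrank (ZMod 2) D.NN + finrank (ZMod 2) F = D.J1.card + finrank (ZMod 2) D.𝓛 := by
  have hf1 : Module.Finite (ZMod 2) G := Module.Finite.of_finite
  have hf2 : Module.Finite (ZMod 2) F := Module.Finite.of_finite
  have h1 := LinearMap.finrank_range_add_finrank_ker D.ps
  rw [LinearMap.range_eq_top.2 (Dt.ps_surj h), finrank_top, Module.finrank_prod,
    Module.finrank_prod, Module.finrank_prod, finrank_fintype_fun_eq_card,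
    finrank_fintype_fun_eq_card, Fintype.card_coe] at h1
  have h2 : D.NN = (LinearMap.ker D.ps).map D.ii := by
    ext w
    rw [Submodule.mem_map, Dt.mem_NN]
    constructor
    · rintro ⟨h3, h4⟩
      refine ⟨(w.1, w.2.1, ⟨_, h3⟩), ?_, rfl⟩
      rw [LinearMap.mem_ker]
      refine Prod.ext ?_ h4
      show D.sH w + D.sH w = 0
      exact dbl _
    · rintro ⟨⟨x, y, l⟩, h3, rfl⟩
      rw [LinearMap.mem_ker] at h3
      have h4 : D.sH (x, y, l.1.1) + l.1.2 = 0 := congrArg Prod.fst h3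
      have h5 : D.rU (x, y, l.1.1) = 0 := congrArg Prod.snd h3
      refine ⟨?_, h5⟩
      show (l.1.1, D.sH (x, y, l.1.1)) ∈ D.𝓛
      rw [eq_of_add h4]
      exact l.2
  have h3 : finrank (ZMod 2) ((LinearMap.ker D.ps).map D.ii) =
      finrank (ZMod 2) (LinearMap.ker D.ps) := by
    have h4 : Function.Injective (D.ii ∘ₗ (LinearMap.ker D.ps).subtype) := by
      rw [injective_iff_map_eq_zero]
      rintro ⟨⟨x, y, l⟩, h5⟩ h6
      have h7 : ((x, y, l.1.1) : D.E) = 0 := h6
      have hx : x = 0 := congrArg Prod.fst h7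
      have hy : y = 0 := congrArg (fun t => t.2.1) h7
      have hl : l.1.1 = 0 := congrArg (fun t => t.2.2) h7
      rw [LinearMap.mem_ker] at h5
      have h8 : D.sH (x, y, l.1.1) + l.1.2 = 0 := congrArg Prod.fst h5
      have h9 : l.1.2 = 0 := by
        rw [hx, hy, hl] at h8
        have : D.sH ((0, 0, 0) : D.E) = 0 := map_zero _
        rwa [this, zero_add] at h8
      have hl0 : l = 0 := Subtype.ext (Prod.ext hl h9)
      refine Subtype.ext ?_
      show ((x, y, l) : (U → ZMod 2) × (D.J1 → ZMod 2) × D.𝓛) = 0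
      rw [hx, hy, hl0]
      rfl
    rw [← Submodule.range_subtype (LinearMap.ker D.ps), ← LinearMap.range_comp,
      LinearMap.finrank_range_of_inj h4, Submodule.range_subtype]
  rw [h2, h3]
  omega

end fin

end Q44.BC
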